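import Pool.Agent.helper80.SV.Spec

/-!
# Project sv, module CUT: cutting
-/

set_option autoImplicit false
set_option linter.unusedSectionVars false

namespace Pool.Agent.SV

open MvPolynomial Module

section

variable {ι κ : Type} [Fintype ι] [DecidableEq ι] [Fintype κ] [DecidableEq κ]

/-- the substitution -/
noncomputable def CUT_s (A : Finset ι) : MvPolynomial ι ℂ →ₐ[ℂ] MvPolynomial ι ℂ :=
  aeval (fun i => if i ∈ A then X i else 0)

theorem CUT_s_X (A : Finset ι) (i : ι) :
    CUT_s A (X i : MvPolynomial ι ℂ) = if i ∈ A then X i else 0 := by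
  rw [CUT_s, aeval_X]

theorem CUT_s_C (A : Finset ι) (a : ℂ) : CUT_s A (C a : MvPolynomial ι ℂ) = C a := by
  rw [CUT_s, aeval_C, algebraMap_eq]

theorem CUT_eval (A : Finset ι) (x : ι → ℂ) (f : MvPolynomial ι ℂ) :
    eval (cut A x) (CUT_s A f) = eval (cut A x) f := by
  induction f using MvPolynomial.induction_on with
  | C a => rw [CUT_s_C]
  | add p q hp hq => rw [map_add, map_add, map_add, hp, hq]
  | mul_X p i hp =>
    rw [map_mul, map_mul, map_mul, hp, CUT_s_X]
    congr 1
    by_cases h : i ∈ A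
    · rw [if_pos h]
    · rw [if_neg h, map_zero, eval_X, cut, if_neg h]

theorem CUT_pderiv (A : Finset ι) (i : ι) (hi : i ∈ A) (f : MvPolynomial ι ℂ) :
    pderiv i (CUT_s A f) = CUT_s A (pderiv i f) := by
  induction f using MvPolynomial.induction_on with
  | C a => rw [CUT_s_C, pderiv_C, map_zero]
  | add p q hp hq => rw [map_add, map_add, hp, hq, map_add, map_add]
  | mul_X p j hp =>
    rw [map_mul, Derivation.leibniz, Derivation.leibniz, hp, CUT_s_X]
    simp only [smul_eq_mul, map_add, map_mul, CUT_s_X]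
    have h1 : pderiv i (if j ∈ A then (X j : MvPolynomial ι ℂ) else 0) = CUT_s A (pderiv i (X j)) := by
      rw [pderiv_X]
      by_cases hj : j ∈ A
      · rw [if_pos hj, pderiv_X]
        by_cases hij : i = j
        · subst hij
          rw [Pi.single_eq_same, map_one]
        · rw [Pi.single_eq_of_ne (Ne.symm hij), map_zero]
      · rw [if_neg hj, map_zero]
        have hij : j ≠ i := by
          rintro rfl
          exact hj hi
        rw [Pi.single_eq_of_ne hij, map_zero]
    rw [h1]

theorem CUT_mon (c : ι → κ) (A B : Finset ι) (d : κ → ℕ) (f : MvPolynomial ι ℂ) (hf : f ∈ Sec c B d) :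
    CUT_s A f ∈ Sec c A d := by
  rw [CUT_s, aeval_def, eval₂_eq']
  refine Submodule.sum_mem _ fun m hm => ?_
  have hmB : m ∈ Mon c B d := mem_Sec.1 hf m (by rwa [MvPolynomial.mem_support_iff] at hm)
  by_cases hA : ∀ i ∉ A, m i = 0
  · have h1 : (algebraMap ℂ (MvPolynomial ι ℂ)) (coeff m f) *
        ∏ i, (if i ∈ A then (X i : MvPolynomial ι ℂ) else 0) ^ m i = monomial m (coeff m f) := by
      rw [monomial_eq, algebraMap_eq, Finsupp.prod_fintype _ _ (fun i => pow_zero _)]
      congr 1
      refine Finset.prod_congr rfl fun i _ => ?_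
      by_cases h : i ∈ A
      · rw [if_pos h]
      · rw [if_neg h, hA i h, pow_zero, pow_zero]
    rw [h1, mem_Sec]
    intro m' hm'
    rw [coeff_monomial] at hm'
    by_cases h : m = m'
    · subst h
      exact ⟨hA, hmB.2⟩
    · rw [if_neg h] at hm'
      exact absurd rfl hm'
  · push Not at hA
    obtain ⟨i, hi, hmi⟩ := hA
    have h1 : ∏ i, (if i ∈ A then (X i : MvPolynomial ι ℂ) else 0) ^ m i = 0 := by
      refine Finset.prod_eq_zero (Finset.mem_univ i) ?_
      rw [if_neg hi, zero_pow hmi]
    rw [h1, mul_zero]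
    exact Submodule.zero_mem _

end

theorem CUT : CUT_stmt := by
  intro ι κ _ _ _ _ c A B d hAB
  constructor
  · intro f hf
    rw [mem_Sec] at hf ⊢
    intro m hm
    obtain ⟨h1, h2⟩ := hf m hm
    exact ⟨fun i hi => h1 i (fun h => hi (hAB h)), h2⟩
  · intro f hf
    refine ⟨CUT_s A f, CUT_mon c A B d f hf, fun x => CUT_eval A x f, fun x => ?_⟩
    funext i
    rw [gradL_apply, gradL_apply]
    by_cases hi : i ∈ A
    · rw [if_pos hi, if_pos hi, CUT_pderiv A i hi, CUT_eval]
    · rw [if_neg hi, if_neg hi]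

end Pool.Agent.SV
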